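import Mathlib
import Pool.Agent.Helper59.ZP.ZFinal
import Pool.Agent.Helper59.ZP.QRate
import Pool.Agent.Helper11.Point

/-!
# The laws for all varieties, with a proportion which may depend on the dimension
-/

universe u v w

open CategoryTheory Filter Topology

namespace Pool.Agent.Helper11.ZQ

open Pool.Agent.Helper10 Pool.Agent.Helper11 SmProjVar Pool.Agent.Helper59.ZO
  Pool.Agent.Helper59.ZP

/-- `e N` does not tend to zero as fast as `1 / log N`: the product `e N * log N` tends to
infinity. -/
def SlowerThanLog (e : ℕ → ℝ) : Prop := Tendsto (fun N => e N * Real.log N) atTop atTop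

/-- For all `Y` at least the proportion `1 / 2 + e (dim Y)` of the classes in `V Y` is algebraic: the
dimension of the span of the classes of algebraic cycles on `Y` is at least `1 / 2 + e (dim Y)` times
the dimension of `V Y`. -/
def HalfAndMore {k : Type u} [Field k] {K : Type v} [Field K] (W : CohomologyData.{u, v, w} k K)
    (V : ∀ Y : SmProjVar k, Submodule K (W.H Y)) (e : ℕ → ℝ) : Prop :=
  ∀ Y, (1 / 2 + e Y.dim) * Module.finrank K (V Y) ≤ cycRank W Y

lemma slowerThanLog_const {c : ℝ} (hc : 0 < c) : SlowerThanLog fun _ => c :=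
  (Real.tendsto_log_atTop.comp tendsto_natCast_atTop_atTop).const_mul_atTop hc

lemma exists_large {e : ℕ → ℝ} (he : SlowerThanLog e) {d : ℕ} (hd : 1 ≤ d) (C : ℝ) :
    ∃ n : ℕ, C < e ((n + 1) * d) * Real.log (n + 2) := by
  have hl2 : 0 < Real.log 2 := Real.log_pos (by norm_num)
  have hd' : (1 : ℝ) ≤ d := by exact_mod_cast hd
  have hld : 0 ≤ Real.log d := Real.log_nonneg hd'
  obtain ⟨N, hN⟩ := eventually_atTop.1
    (he.eventually_gt_atTop ((1 + Real.log d / Real.log 2) * (|C| + 1)))
  have hc : 1 ≤ 1 + Real.log d / Real.log 2 := by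
    have := div_nonneg hld hl2.le
    linarith
  refine ⟨N, ?_⟩
  have h1 := hN ((N + 1) * d) (by nlinarith)
  have hN0 : (0 : ℝ) ≤ N := Nat.cast_nonneg N
  have hl3 : Real.log 2 ≤ Real.log (N + 2) := Real.log_le_log (by norm_num) (by linarith)
  have h2 : Real.log (((N + 1) * d : ℕ) : ℝ) ≤
      (1 + Real.log d / Real.log 2) * Real.log (N + 2) := by
    have h3 : Real.log (((N + 1) * d : ℕ) : ℝ) = Real.log (N + 1) + Real.log d := by
      push_cast
      rw [Real.log_mul (by linarith) (by linarith)]
    have h4 : Real.log ((N : ℝ) + 1) ≤ Real.log (N + 2) :=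
      Real.log_le_log (by linarith) (by linarith)
    have h5 : Real.log d ≤ Real.log d / Real.log 2 * Real.log (N + 2) := by
      rw [div_mul_eq_mul_div, le_div_iff₀ hl2]
      exact mul_le_mul_of_nonneg_left hl3 hld
    rw [h3, add_mul, one_mul]
    linarith
  have h0 : 0 ≤ Real.log (((N + 1) * d : ℕ) : ℝ) := Real.log_natCast_nonneg _
  have hC : 0 ≤ |C| := abs_nonneg C
  have hpos : 0 < e ((N + 1) * d) := by
    by_contra hcon
    have h6 : e ((N + 1) * d) * Real.log (((N + 1) * d : ℕ) : ℝ) ≤ 0 :=
      mul_nonpos_of_nonpos_of_nonneg (not_lt.mp hcon) h0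
    nlinarith
  have h7 : e ((N + 1) * d) * Real.log (((N + 1) * d : ℕ) : ℝ) ≤
      (1 + Real.log d / Real.log 2) * (e ((N + 1) * d) * Real.log (N + 2)) := by
    have := mul_le_mul_of_nonneg_left h2 hpos.le
    linarith
  have h8 : (1 + Real.log d / Real.log 2) * (|C| + 1) <
      (1 + Real.log d / Real.log 2) * (e ((N + 1) * d) * Real.log (N + 2)) := h1.trans_le h7
  have h9 := lt_of_mul_lt_mul_left h8 (by linarith)
  have := le_abs_self C
  linarith

section

variable {k : Type u} [Field k] {K : Type v} [Field K] [CharZero K]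
  {W : WeilCohomology.{u, v, w} k K}

lemma dim_selfProd (X : SmProjVar k) (n : ℕ) : (X.selfProd n).dim = (n + 1) * X.dim := by
  induction n with
  | zero => rw [zero_add, one_mul]; rfl
  | succ n ih =>
    have h : (X.selfProd (n + 1)).dim = X.dim + (X.selfProd n).dim := rfl
    rw [h, ih]
    ring

/-- D for all varieties in terms of a proportion which may tend to zero, more slowly than
`1 / log (dim Y)`. -/
theorem all_iff_dim : (∀ Y, W.StandardD Y) ↔ ∃ e : ℕ → ℝ, SlowerThanLog e ∧ ∀ Y,
    e Y.dim * cycRank W.toCohomologyData Y ≤ numCycRank W.toCohomologyData Y := by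
  constructor
  · intro h
    refine ⟨fun _ => 1, slowerThanLog_const one_pos, fun Y => ?_⟩
    rw [numCycRank_eq_of_standardD W (h Y), one_mul]
  · rintro ⟨e, he, h⟩ X
    rcases Nat.eq_zero_or_pos X.dim with h0 | h0
    · exact standardD_of_dim_eq_zero W X h0
    by_contra hD
    obtain ⟨C, hC, hr⟩ := uniform_rate.{u, v, w} (betti W.toCohomologyData X) 0
    obtain ⟨n, hn⟩ := exists_large he h0 C
    have h1 := hr k K W X le_rfl hD n
    have h2 := h (X.selfProd n)
    rw [dim_selfProd] at h2
    have hl : 0 < Real.log ((n : ℝ) + 2) :=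
      Real.log_pos (by have : (0 : ℝ) ≤ n := Nat.cast_nonneg n; linarith)
    have ha : (0 : ℝ) < cycRank W.toCohomologyData (X.selfProd n) := by
      exact_mod_cast (numCycRank_pos W (X.selfProd n)).trans (numCycRank_le W (X.selfProd n))
    have h3 : e ((n + 1) * X.dim) * cycRank W.toCohomologyData (X.selfProd n) *
        Real.log (n + 2) ≤ C * cycRank W.toCohomologyData (X.selfProd n) :=
      (mul_le_mul_of_nonneg_right h2 hl.le).trans h1
    nlinarith

/-- the cohomology of a variety of dimension zero is algebraic -/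
lemma algClasses_of_dim_eq_zero {X : SmProjVar k} (hX : X.dim = 0) (x : W.H X) :
    x ∈ W.algClasses X := by
  obtain ⟨p, hp, hp1⟩ := exists_trace_one W X
  have hgr : ∀ y : W.H X, y ∈ W.gr X (2 * X.dim) := by
    intro y
    refine W.gr_induction X (p := fun y => y ∈ W.gr X (2 * X.dim)) ?_ (Submodule.zero_mem _)
      (fun a b ha hb => Submodule.add_mem _ ha hb) y
    intro i y hy
    rcases Nat.eq_zero_or_pos i with rfl | hi
    · rw [hX]
      exact hy
    · rw [(W.graded X).eq_bot i (by omega)] at hy
      rw [(Submodule.mem_bot K).mp hy]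
      exact Submodule.zero_mem _
  obtain ⟨u, -, hu⟩ := (W.trace X).bijective (W.trL X x)
  have h1 := hu x ⟨hgr x, rfl⟩
  have h2 : W.trL X (W.trL X x • p) = W.trL X x := by
    rw [map_smul, hp1, smul_eq_mul, mul_one]
  have h3 := hu (W.trL X x • p) ⟨hgr _, h2⟩
  rw [h1, ← h3]
  exact Submodule.smul_mem _ _ hp

/-- The half law for all varieties, with a proportion which may tend to `1 / 2`. -/
theorem global_law_dim {V : ∀ Y : SmProjVar k, Submodule K (W.H Y)}
    (hV : IsPerfectGlobalSystem W.toCohomologyData V) :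
    GloballyAlgebraic W.toCohomologyData V ↔
      ∃ e : ℕ → ℝ, SlowerThanLog e ∧ HalfAndMore W.toCohomologyData V e := by
  constructor
  · intro h
    refine ⟨fun _ => 1 / 2, slowerThanLog_const one_half_pos, fun Y => ?_⟩
    have h1 : V Y = W.algClasses Y := le_antisymm (h Y).2 (hV.alg_le Y)
    have h2 : (cycRank W.toCohomologyData Y : ℝ) = Module.finrank K (V Y) := by
      rw [h1]
      rfl
    rw [h2]
    linarith
  · rintro ⟨e, he, h⟩ X
    rcases Nat.eq_zero_or_pos X.dim with h0 | h0
    · exact ⟨standardD_of_dim_eq_zero W X h0, fun x _ => algClasses_of_dim_eq_zero h0 x⟩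
    obtain ⟨C, hC⟩ := half_one_power.{u, v, w} (betti W.toCohomologyData X) 0
    obtain ⟨n, hn⟩ := exists_large he h0 C
    have hsys : IsSystem W.toCohomologyData X fun n => V (X.selfProd n) :=
      { alg_le := fun n => hV.alg_le _
        map_mem := fun m n f hf u hu => hV.map_mem _ _ f hf u hu }
    refine hC k K W X le_rfl (fun n => V (X.selfProd n)) hsys n
      (fun u hu hv => hV.nondegenerate _ u hu hv) ?_ 0 le_rfl
    have h2 := h (X.selfProd n)
    rw [dim_selfProd] at h2
    have hl : 0 < Real.log ((n : ℝ) + 2) :=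
      Real.log_pos (by have : (0 : ℝ) ≤ n := Nat.cast_nonneg n; linarith)
    have hv := sys_pos hsys n
    have h3 : C / Real.log (n + 2) < e ((n + 1) * X.dim) := (div_lt_iff₀ hl).mpr hn
    refine lt_of_lt_of_le ?_ h2
    exact mul_lt_mul_of_pos_right (by linarith) hv

end

end Pool.Agent.Helper11.ZQ
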