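import Mathlib
import Pool.Agent.Helper34.ZP.PolyHalfQ
import Pool.Agent.Helper10.PR.Glob

/-!
# The laws with a power saving, without the sign conjecture

Everything is deduced from the rate `PolyRate2`.
-/

universe u v w t

open CategoryTheory TensorProduct Filter Topology

namespace Pool.Agent.Helper11.ZQ

open Pool.Agent.Helper10 Pool.Agent.Helper11 Pool.Agent.Helper11.Iso SmProjVar SPre
  Pool.Agent.Helper4.HL Pool.Agent.Helper34.ZP

/-- the rate of the powers, in the form of a power of `n + 2` -/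
def PolyRate2 (b r : ℕ) : Prop := ∃ C α : ℝ, 0 < C ∧ 0 < α ∧
    ∀ (k : Type u) [Field k] (K : Type t) [Field K] (Ω : Type v) [Field Ω] [Algebra K Ω]
      [CharZero Ω] (P : SPre.{u, v, w, t} k K Ω), (∀ Y, 1 ≤ nr P Y) → ∀ X : SmProjVar k,
        Module.finrank Ω (P.H X) ≤ b → ¬ P.D (X.selfProd r) → ∀ n : ℕ,
          (nr P (X.selfProd n) : ℝ) * ((n : ℝ) + 2) ^ α ≤ C * hr P (X.selfProd n)

/-- both cases together: twice the algebraic classes -/
theorem two_mul_poly2 (b r : ℕ) (hpoly : PolyRate2.{u, v, w, t} b (2 * (2 * r + 1) + 1)) :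
    ∃ C α : ℝ, 1 ≤ C ∧ 0 < α ∧ α ≤ 1 / 2 ∧
    ∀ (k : Type u) [Field k] (K : Type t) [Field K] (Ω : Type v) [Field Ω] [Algebra K Ω]
      [CharZero Ω] (P : SPre.{u, v, w, t} k K Ω), (∀ Y, 1 ≤ nr P Y) → ∀ X : SmProjVar k,
        Module.finrank Ω (P.H X) ≤ b → ∀ m : ℕ,
          2 * C < ((m : ℝ) + 2) ^ α →
          (nr P (X.selfProd m) * ((m : ℝ) + 2) ^ α ≤ C * hr P (X.selfProd m)) ∨
          (P.D (X.selfProd (2 * (2 * r + 1) + 1)) ∧
            (1 - 1 / ((m : ℝ) + 2) ^ α) * nr P (X.selfProd m) +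
              ((Module.finrank Ω (P.H (X.selfProd (2 * r + 1))) : ℝ) - 1) * uni P X m ≤
                nr P ((X.selfProd (2 * r + 1)).prod (X.selfProd m))) := by
  obtain ⟨C1, α1, hC1, hα1, h1⟩ := hpoly
  obtain ⟨l0, hl0⟩ := exists_l2 (b ^ (2 * r + 4) * (r + 2)) (2 * b ^ 2 + 2)
  refine ⟨C1 + 2 * b + 2 + (2 * l0 + 5), min α1 (1 / 2), ?_, lt_min hα1 (by norm_num),
    min_le_right _ _, ?_⟩
  · have h2 : (0 : ℝ) ≤ b := Nat.cast_nonneg _
    have h3 : (0 : ℝ) ≤ l0 := Nat.cast_nonneg _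
    linarith
  intro k _ K _ Ω _ _ _ P hpt X hX m hm
  set α : ℝ := min α1 (1 / 2) with hαdef
  have hα0 : 0 < α := lt_min hα1 (by norm_num)
  have hα2 : α ≤ 1 / 2 := min_le_right _ _
  have hm0 : (0 : ℝ) ≤ m := Nat.cast_nonneg _
  have hm1 : (1 : ℝ) ≤ (m : ℝ) + 2 := by linarith
  set L : ℝ := ((m : ℝ) + 2) ^ α with hLdef
  have hb0 : (0 : ℝ) ≤ b := Nat.cast_nonneg _
  have hl00 : (0 : ℝ) ≤ l0 := Nat.cast_nonneg _
  have hL1 : 1 ≤ L := by linarith
  have hLm : L ≤ √((m : ℝ) + 2) := by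
    rw [Real.sqrt_eq_rpow]
    exact Real.rpow_le_rpow_of_exponent_le hm1 hα2
  have hLα : L ≤ ((m : ℝ) + 2) ^ α1 := Real.rpow_le_rpow_of_exponent_le hm1 (min_le_left _ _)
  have hB : (1 : ℝ) ≤ Module.finrank Ω (P.H X) := by exact_mod_cast one_le_finrank hpt X
  have hBb : (Module.finrank Ω (P.H X) : ℝ) ≤ b := by exact_mod_cast hX
  have hh0 : (0 : ℝ) ≤ hr P (X.selfProd m) := Nat.cast_nonneg _
  have hnm0 : (0 : ℝ) ≤ nr P (X.selfProd m) := Nat.cast_nonneg _
  by_cases hA : nr P (X.selfProd m) * L ≤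
      (C1 + 2 * b + 2 + (2 * l0 + 5)) * hr P (X.selfProd m)
  · exact .inl hA
  right
  push Not at hA
  have hA1 : (C1 + 2 * b + 2) * (hr P (X.selfProd m) : ℝ) < nr P (X.selfProd m) * L := by
    refine lt_of_le_of_lt (mul_le_mul_of_nonneg_right ?_ hh0) hA
    linarith
  refine ⟨?_, ?_⟩
  · by_contra hD
    have h2 := h1 k K Ω P hpt X hX hD m
    have h3 : C1 * (hr P (X.selfProd m) : ℝ) ≤ (C1 + 2 * b + 2) * hr P (X.selfProd m) :=
      mul_le_mul_of_nonneg_right (by linarith) hh0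
    have h4 : (nr P (X.selfProd m) : ℝ) * L ≤ nr P (X.selfProd m) * ((m : ℝ) + 2) ^ α1 :=
      mul_le_mul_of_nonneg_left hLα hnm0
    linarith
  -- `m` is large
  have hml : 2 * l0 + 3 ≤ m := by
    by_contra hcon
    push Not at hcon
    have h2 : L ≤ 2 * l0 + 5 := by
      have h3 : (m : ℝ) ≤ 2 * l0 + 3 := by
        have : m ≤ 2 * l0 + 3 := hcon.le
        exact_mod_cast this
      have h4 : L ≤ ((m : ℝ) + 2) ^ (1 : ℝ) :=
        Real.rpow_le_rpow_of_exponent_le hm1 (by linarith)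
      rw [Real.rpow_one] at h4
      linarith
    linarith
  obtain ⟨l, hl, hml⟩ : ∃ l ≥ l0, m = 2 * l + 1 ∨ m = 2 * l + 2 := by
    rcases Nat.even_or_odd' m with ⟨l, rfl | rfl⟩
    · exact ⟨l - 1, by omega, by omega⟩
    · exact ⟨l, by omega, by omega⟩
  obtain ⟨h2, h3, h4⟩ := hl0 l hl m (by omega)
  have hlr : (1 : ℝ) ≤ l := by exact_mod_cast h2
  have hlogl : 0 ≤ Real.log ((l : ℝ) + 2) := Real.log_nonneg (by linarith)
  have hLl : L ≤ 2 * ((l : ℝ) + 2) := by
    have hm' : (m : ℝ) ≤ 2 * l + 2 := by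
      have : m ≤ 2 * l + 2 := by omega
      exact_mod_cast this
    have h4 : L ≤ ((m : ℝ) + 2) ^ (1 : ℝ) :=
      Real.rpow_le_rpow_of_exponent_le hm1 (by linarith)
    rw [Real.rpow_one] at h4
    linarith
  refine step_aux_pow hpt X hX (ε := 1 / L) ?_ h2 h3 ?_ ?_ hml
  · rw [div_le_one (by linarith)]
    exact hL1
  · rw [le_div_iff₀ (by linarith)]
    refine le_trans (mul_le_mul_of_nonneg_left hLm ?_) h4
    positivity
  · -- the homological rank is not too large
    have hn0 : (0 : ℝ) ≤ nr P (X.selfProd (2 * l + 1)) := Nat.cast_nonneg _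
    have h5 : (2 * (b : ℝ) + 2) * hr P (X.selfProd m) ≤
        (C1 + 2 * b + 2) * hr P (X.selfProd m) :=
      mul_le_mul_of_nonneg_right (by linarith) hh0
    have hnpos : (0 : ℝ) < nr P (X.selfProd (2 * l + 1)) := by exact_mod_cast hpt _
    have h6 : (hr P (X.selfProd (2 * l + 1)) : ℝ) ≤ hr P (X.selfProd m) ∧
        (nr P (X.selfProd m) : ℝ) ≤ b * nr P (X.selfProd (2 * l + 1)) := by
      rcases hml with rfl | rfl
      · exact ⟨le_rfl, by nlinarith⟩
      · constructor
        · exact_mod_cast hr_le_succ (P := P) X (2 * l + 1)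
        · have h7 : (nr P (X.selfProd (2 * l + 2)) : ℝ) ≤
              Module.finrank Ω (P.H X) * nr P (X.selfProd (2 * l + 1)) := by
            exact_mod_cast odd_le (P := P) X l
          exact h7.trans (mul_le_mul_of_nonneg_right hBb hn0)
    have h7 : (nr P (X.selfProd m) : ℝ) * L ≤
        b * nr P (X.selfProd (2 * l + 1)) * (2 * ((l : ℝ) + 2)) :=
      mul_le_mul h6.2 hLl (by linarith) (by positivity)
    have h8 : (2 * (b : ℝ) + 2) * hr P (X.selfProd (2 * l + 1)) ≤
        (2 * (b : ℝ) + 2) * hr P (X.selfProd m) :=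
      mul_le_mul_of_nonneg_left h6.1 (by positivity)
    have h9 : (2 * (b : ℝ) + 2) * hr P (X.selfProd (2 * l + 1)) <
        (2 * (b : ℝ) + 2) * (nr P (X.selfProd (2 * l + 1)) * ((l : ℝ) + 2)) := by
      have h10 : 0 ≤ (nr P (X.selfProd (2 * l + 1)) : ℝ) * ((l : ℝ) + 2) := by positivity
      nlinarith
    exact lt_of_mul_lt_mul_left h9 (by positivity)

/-- **The half law on one power, with a power saving.** -/
theorem poly_half_rate2 (b r : ℕ) (hpoly : PolyRate2.{u, v, w, t} b (2 * (2 * r + 1) + 1)) :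
    ∃ C α : ℝ, 0 < C ∧ 0 < α ∧
    ∀ (k : Type u) [Field k] (K : Type t) [Field K] (Ω : Type v) [Field Ω] [Algebra K Ω]
      [CharZero Ω] (P : SPre.{u, v, w, t} k K Ω), (∀ Y, 1 ≤ nr P Y) → ∀ X : SmProjVar k,
        Module.finrank Ω (P.H X) ≤ b →
          ∀ V : ∀ n, Submodule Ω (P.H (X.selfProd n)), IsSys V →
          (∀ n, P.alg (X.selfProd n) ≤ V n) → ∀ m : ℕ,
            (∀ x ∈ V m, (∀ y ∈ V m, P.tr _ (x * y) = 0) → x = 0) →
              (1 / 2 + C / ((m : ℝ) + 2) ^ α) * Module.finrank Ω (V m) < hr P (X.selfProd m) →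
                ∀ s ≤ r, P.D (X.selfProd s) ∧ V s = P.alg (X.selfProd s) := by
  obtain ⟨C, α, hC, hα, hα2, h⟩ := two_mul_poly2.{u, v, w, t} b r hpoly
  refine ⟨C, α, by linarith, hα, ?_⟩
  intro k _ K _ Ω _ _ _ P hpt X hX V hV hA m hnd hhalf
  have hN : (0 : ℝ) < nr P (X.selfProd m) := by exact_mod_cast hpt _
  have hnh : (nr P (X.selfProd m) : ℝ) ≤ Pool.Agent.Helper34.ZP.hr P (X.selfProd m) := by
    exact_mod_cast (rdim_le _ _ : nr P (X.selfProd m) ≤ _)
  have ha : (0 : ℝ) < Pool.Agent.Helper34.ZP.hr P (X.selfProd m) := hN.trans_le hnh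
  have hat : (Pool.Agent.Helper34.ZP.hr P (X.selfProd m) : ℝ) ≤ Module.finrank Ω (V m) := by
    have := P.fin (X.selfProd m)
    exact_mod_cast Submodule.finrank_mono (hA m)
  have hm0 : (0 : ℝ) ≤ m := Nat.cast_nonneg _
  have hL : 0 < ((m : ℝ) + 2) ^ α := Real.rpow_pos_of_pos (by linarith) _
  have h2 : 2 * (Pool.Agent.Helper34.ZP.hr P (X.selfProd m) : ℝ) ≤
      Module.finrank Ω (V m) + nr P (X.selfProd m) := by
    exact_mod_cast two_mul_hr_le_one (hA m) hnd
  -- if `D` holds and some class is not algebraic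
  have hD : P.D (X.selfProd (2 * (2 * r + 1) + 1)) ∧
      V (2 * r + 1) = P.alg (X.selfProd (2 * r + 1)) := by
    by_contra hcon
    refine half_contra ha hC le_rfl hL hat (fun hLC => ?_) hhalf
    rcases h k K Ω P hpt X hX m hLC with h3 | ⟨hD, h3⟩
    · have h4 : (nr P (X.selfProd m) : ℝ) ≤
          C / ((m : ℝ) + 2) ^ α * Pool.Agent.Helper34.ZP.hr P (X.selfProd m) := by
        rw [div_mul_eq_mul_div, le_div_iff₀ hL]
        exact h3
      rw [sub_mul]
      linarith
    · have hne : V (2 * r + 1) ≠ P.alg (X.selfProd (2 * r + 1)) := fun h4 => hcon ⟨hD, h4⟩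
      have hm : 1 ≤ m := by
        by_contra hm
        have hm0 : m = 0 := by omega
        rw [hm0] at hLC
        have h5 : (((0 : ℕ) : ℝ) + 2) ^ α < 2 := by
          rw [Nat.cast_zero, zero_add]
          calc (2 : ℝ) ^ α < 2 ^ (1 : ℝ) :=
                Real.rpow_lt_rpow_of_exponent_lt (by norm_num) (by linarith)
            _ = 2 := Real.rpow_one 2
        linarith
      have h5 := perfect_one hV hA (r := 2 * r + 1) (m := m) hm hnd hD hne
      have hb := one_le_finrank hpt (X.selfProd (2 * r + 1))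
      have h6 : ((Module.finrank Ω (P.H (X.selfProd (2 * r + 1))) - 1 : ℕ) : ℝ) =
          (Module.finrank Ω (P.H (X.selfProd (2 * r + 1))) : ℝ) - 1 := by
        rw [Nat.cast_sub hb, Nat.cast_one]
      have h7 : 2 * (Pool.Agent.Helper34.ZP.hr P (X.selfProd m) : ℝ) +
          nr P ((X.selfProd (2 * r + 1)).prod (X.selfProd m)) ≤
            Module.finrank Ω (V m) + nr P (X.selfProd m) +
              ((Module.finrank Ω (P.H (X.selfProd (2 * r + 1))) : ℝ) - 1) * uni P X m := by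
        rw [← h6]
        exact_mod_cast h5
      have h8 : 1 / ((m : ℝ) + 2) ^ α * (nr P (X.selfProd m) : ℝ) ≤
          C / ((m : ℝ) + 2) ^ α * Pool.Agent.Helper34.ZP.hr P (X.selfProd m) := by
        refine mul_le_mul ?_ hnh hN.le (by positivity)
        gcongr
      rw [sub_mul]
      linarith
  exact fun s hs => ⟨D_of_le (by omega) hD.1, sys_of_le hV hA (by omega) hD.2⟩


section Weil

open Pool.Agent.Helper59.ZO Pool.Agent.Helper59.ZP Pool.Agent.Helper10.PR

/-- the rate, for Weil cohomology theories -/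
theorem rate_of (b r : ℕ) (h0 : PolyRate2.{u, v, w, v} b r) : ∃ C α : ℝ, 0 < C ∧ 0 < α ∧
    ∀ (k : Type u) [Field k] (K : Type v) [Field K] [CharZero K]
      (W : WeilCohomology.{u, v, w} k K) (X : SmProjVar k), betti W.toCohomologyData X ≤ b →
        ¬ W.StandardD (X.selfProd r) → ∀ n : ℕ,
          (numCycRank W.toCohomologyData (X.selfProd n) : ℝ) * ((n : ℝ) + 2) ^ α ≤
            C * cycRank W.toCohomologyData (X.selfProd n) := by
  obtain ⟨C, α, hC, hα, h⟩ := h0
  refine ⟨C, α, hC, hα, ?_⟩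
  intro k _ K _ _ W X hX hD n
  have h1 := h k K K (base W) (nr_base_pos W) X hX (fun h => hD ((d_base W _).mp h)) n
  rw [nr_base, hr_base] at h1
  exact h1

/-- **One power is enough**, with a power saving. -/
theorem one_power_of (b r : ℕ) (h0 : PolyRate2.{u, v, w, v} b r) : ∃ C α : ℝ, 0 < C ∧ 0 < α ∧
    ∀ (k : Type u) [Field k] (K : Type v) [Field K] [CharZero K]
      (W : WeilCohomology.{u, v, w} k K) (X : SmProjVar k), betti W.toCohomologyData X ≤ b →
        ∀ n : ℕ, C * cycRank W.toCohomologyData (X.selfProd n) <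
            numCycRank W.toCohomologyData (X.selfProd n) * ((n : ℝ) + 2) ^ α →
            W.StandardD (X.selfProd r) := by
  obtain ⟨C, α, hC, hα, h⟩ := rate_of.{u, v, w} b r h0
  refine ⟨C, α, hC, hα, ?_⟩
  intro k _ K _ _ W X hX n hn
  by_contra hD
  exact absurd hn (not_lt.mpr (h k K W X hX hD n))

/-- D for all varieties in terms of a proportion which may tend to zero, more slowly than all
negative powers of `dim Y`. -/
theorem all_iff_power (h0 : ∀ b, PolyRate2.{u, v, w, v} b 0) {k : Type u} [Field k]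
    {K : Type v} [Field K] [CharZero K] {W : WeilCohomology.{u, v, w} k K} :
    (∀ Y, W.StandardD Y) ↔ ∃ e : ℕ → ℝ, SlowerThanPowers e ∧ ∀ Y,
      e Y.dim * cycRank W.toCohomologyData Y ≤ numCycRank W.toCohomologyData Y := by
  refine all_iff_pow_of fun X => ?_
  obtain ⟨C, α, hC, hα, h⟩ := rate_of.{u, v, w} (betti W.toCohomologyData X) 0 (h0 _)
  exact ⟨C, α, hC, hα, fun hD n => h k K W X le_rfl hD n⟩

/-- **The half law on one power, with a power saving.** -/
theorem half_power_of (b r : ℕ) (h0 : PolyRate2.{u, v, w, v} b (2 * (2 * r + 1) + 1)) :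
    ∃ C α : ℝ, 0 < C ∧ 0 < α ∧
    ∀ (k : Type u) [Field k] (K : Type v) [Field K] [CharZero K]
      (W : WeilCohomology.{u, v, w} k K) (X : SmProjVar k), betti W.toCohomologyData X ≤ b →
        ∀ V, IsSystem W.toCohomologyData X V → ∀ m : ℕ,
          NondegenerateAt W.toCohomologyData X V m →
          MoreThan W.toCohomologyData X V m (1 / 2 + C / ((m : ℝ) + 2) ^ α) →
          AlgebraicUpTo W.toCohomologyData X V r := by
  obtain ⟨C, α, hC, hα, h⟩ := poly_half_rate2.{u, v, w, v} b r h0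
  refine ⟨C, α, hC, hα, ?_⟩
  intro k _ K _ _ W X hX V hV m hnd ha s hs
  have h1 := h k K K (base W) (nr_base_pos W) X hX V
    (sys_mor hV) (sys_alg hV) m
    (fun x hx hy => hnd x hx hy) (by rw [hr_base]; exact ha) s hs
  exact ⟨(d_base W _).mp h1.1, h1.2.le⟩

/-- The half law for all varieties, with a proportion which may tend to `1 / 2`, more slowly than
all negative powers of the dimension. -/
theorem global_law_power (h0 : ∀ b, PolyRate2.{u, v, w, v} b 3) {k : Type u} [Field k]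
    {K : Type v} [Field K] [CharZero K] {W : WeilCohomology.{u, v, w} k K}
    {V : ∀ Y : SmProjVar k, Submodule K (W.H Y)}
    (hV : Pool.Agent.Helper59.ZP.IsPerfectGlobalSystem W.toCohomologyData V) :
    Pool.Agent.Helper59.ZP.GloballyAlgebraic W.toCohomologyData V ↔ ∃ e : ℕ → ℝ, SlowerThanPowers e ∧
      HalfAndMore W.toCohomologyData V e := by
  constructor
  · intro h
    refine ⟨fun _ => 1 / 2, slowerThanPowers_const one_half_pos, fun Y => ?_⟩
    have h1 : V Y = W.algClasses Y := le_antisymm (h Y).2 (hV.alg_le Y)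
    have h2 : (cycRank W.toCohomologyData Y : ℝ) = Module.finrank K (V Y) := by
      rw [h1]
      rfl
    rw [h2]
    linarith
  · rintro ⟨e, he, h⟩ X
    rcases Nat.eq_zero_or_pos X.dim with hd | hd
    · exact ⟨standardD_of_dim_eq_zero W X hd, fun x _ => algClasses_of_dim_eq_zero hd x⟩
    obtain ⟨C, α, hC0, hα, hC⟩ := half_power_of.{u, v, w} (betti W.toCohomologyData X) 0 (h0 _)
    obtain ⟨n, hn⟩ := exists_large_pow he hd hα C
    have hsys : IsSystem W.toCohomologyData X fun n => V (X.selfProd n) :=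
      { alg_le := fun n => hV.alg_le _
        map_mem := fun m n f hf u hu => hV.map_mem _ _ f hf u hu }
    refine hC k K W X le_rfl (fun n => V (X.selfProd n)) hsys n
      (fun u hu hv => hV.nondegenerate _ u hu hv) ?_ 0 le_rfl
    have h2 := h (X.selfProd n)
    rw [dim_selfProd] at h2
    have hl : 0 < ((n : ℝ) + 2) ^ α := Real.rpow_pos_of_pos (by positivity) α
    have hv := sys_pos hsys n
    have h3 : C / ((n : ℝ) + 2) ^ α < e ((n + 1) * X.dim) := (div_lt_iff₀ hl).mpr hn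
    refine lt_of_lt_of_le ?_ h2
    exact mul_lt_mul_of_pos_right (by linarith) hv

/-- The second case of the trichotomy: D fails for a power of `X`, the numerically trivial
self-correspondences of the powers are nilpotent, and `a / n` lies between two powers of `m`. -/
def CasePower {k : Type u} [Field k] {K : Type v} [Field K] (W : CohomologyData.{u, v, w} k K)
    (X : SmProjVar k) : Prop :=
  (¬ ∀ m, W.StandardD (X.selfProd m)) ∧ NullNilpotent W X ∧
    (∃ C α : ℝ, 0 < C ∧ 0 < α ∧ ∀ m : ℕ,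
      (numCycRank W (X.selfProd m) : ℝ) * ((m : ℝ) + 2) ^ α ≤ C * cycRank W (X.selfProd m)) ∧
    ∀ m : ℕ, cycRank W (X.selfProd m) ≤
      betti W X * (numCycRank W (X.selfProd m) * (m + 2) ^ (betti W X ^ 2))

/-- **Trichotomy**, with powers. -/
theorem trichotomy_power (h0 : ∀ b r, PolyRate2.{u, v, w, v} b r) {k : Type u} [Field k]
    {K : Type v} [Field K] [CharZero K] (W : WeilCohomology.{u, v, w} k K) (X : SmProjVar k) :
    CaseD W.toCohomologyData X ∨ CasePower W.toCohomologyData X ∨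
      CaseExp W.toCohomologyData X := by
  rcases trichotomy W X with h | ⟨h1, h2, -, h4⟩ | h
  · exact .inl h
  · refine .inr (.inl ⟨h1, h2, ?_, h4⟩)
    push Not at h1
    obtain ⟨r, hr⟩ := h1
    obtain ⟨C, α, hC, hα, h⟩ := rate_of.{u, v, w} (betti W.toCohomologyData X) r (h0 _ _)
    exact ⟨C, α, hC, hα, fun m => h k K W X le_rfl hr m⟩
  · exact .inr (.inr h)

end Weil

end Pool.Agent.Helper11.ZQ
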