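import Mathlib
import Pool.Agent.Helper13.P2.Poly2
import Pool.Agent.Helper11.ZQ.Pow

/-!
# The power saving
-/

universe u v w t

namespace Pool.Agent.Helper11.ZQ

theorem polyRate2 (b r : ℕ) : PolyRate2.{u, v, w, t} b r :=
  Pool.Agent.Helper13.P2.poly_rate2.{u, v, w, t} b r

end Pool.Agent.Helper11.ZQ
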